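import Pool.Agent.H66.AV.TF

/-!
# Row DSG: sums of signs
-/

set_option autoImplicit false

namespace Pool.Agent.H55.AVH

open Finset Pool.Agent.H66.AV

lemma sg_mul_self (b : Bool) : sg b * sg b = 1 := by
  cases b <;> simp [sg]

lemma sg_not (b : Bool) : sg (!b) = -sg b := by
  cases b <;> simp [sg]

lemma dsg_pair (ι : Type) [Fintype ι] [DecidableEq ι] (i j : ι) :
    ∑ b : ι → Bool, sg (b i) * sg (b j) = if i = j then 2 ^ Fintype.card ι else 0 := by
  by_cases h : i = j
  · subst h
    rw [if_pos rfl]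
    simp only [sg_mul_self, sum_const, card_univ, Fintype.card_pi, Fintype.card_bool,
      prod_const, nsmul_eq_mul, mul_one]
    push_cast
    rfl
  · rw [if_neg h]
    have hinv : Function.Involutive (fun b : ι → Bool => Function.update b i (!(b i))) := by
      intro b
      funext l
      by_cases hl : l = i
      · subst hl; simp
      · simp [hl]
    have h1 : ∑ b : ι → Bool, sg (b i) * sg (b j) =
        ∑ b : ι → Bool, -(sg (b i) * sg (b j)) := by
      refine Fintype.sum_bijective _ hinv.bijective _ _ fun b => ?_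
      have h2 : Function.update b i (!(b i)) i = !(b i) := by simp
      have h3 : Function.update b i (!(b i)) j = b j := Function.update_of_ne (Ne.symm h) _ _
      simp only [h2, h3, sg_not]
      ring
    rw [sum_neg_distrib] at h1
    linarith

theorem pf_DSG : T_DSG := by
  intro ι _ _ w hw
  have hcard : (univ : Finset (ι → Bool)).card = 2 ^ Fintype.card ι := by
    simp [card_univ, Fintype.card_pi, Fintype.card_bool, prod_const]
  have hS : ∑ b : ι → Bool, (∑ i, sg (b i)) ^ 2 = Fintype.card ι * 2 ^ Fintype.card ι := by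
    have h1 : ∀ b : ι → Bool, (∑ i, sg (b i)) ^ 2 = ∑ i, ∑ j, sg (b i) * sg (b j) := by
      intro b
      rw [sq, sum_mul_sum]
    simp only [h1]
    rw [sum_comm]
    have h2 : ∀ i : ι, ∑ b : ι → Bool, ∑ j, sg (b i) * sg (b j) = 2 ^ Fintype.card ι := by
      intro i
      rw [sum_comm]
      simp only [dsg_pair, sum_ite_eq, mem_univ, if_true]
    simp only [h2, sum_const, card_univ, nsmul_eq_mul]
  have hW : ∑ b : ι → Bool, w b ^ 2 ≤ 2 ^ Fintype.card ι := by
    calc ∑ b : ι → Bool, w b ^ 2 ≤ ∑ _b : ι → Bool, (1 : ℝ) := by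
          refine sum_le_sum fun b _ => ?_
          rw [← sq_abs]
          exact pow_le_one₀ (abs_nonneg _) (hw b)
      _ = 2 ^ Fintype.card ι := by
          rw [sum_const, hcard]
          simp
  have hCS := sum_mul_sq_le_sq_mul_sq (univ : Finset (ι → Bool)) (fun b => ∑ i, sg (b i)) w
  rw [hS] at hCS
  have h0 : (0 : ℝ) ≤ Fintype.card ι := Nat.cast_nonneg _
  have hR : 0 ≤ (2 : ℝ) ^ Fintype.card ι * √(Fintype.card ι) := by positivity
  refine abs_le_of_sq_le_sq ?_ hR
  calc (∑ b : ι → Bool, (∑ i, sg (b i)) * w b) ^ 2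
      ≤ (Fintype.card ι * 2 ^ Fintype.card ι) * ∑ b : ι → Bool, w b ^ 2 := hCS
    _ ≤ (Fintype.card ι * 2 ^ Fintype.card ι) * 2 ^ Fintype.card ι :=
        mul_le_mul_of_nonneg_left hW (by positivity)
    _ = (2 ^ Fintype.card ι * √(Fintype.card ι)) ^ 2 := by
        rw [mul_pow, Real.sq_sqrt h0]
        ring

end Pool.Agent.H55.AVH
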